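import Pool.Agent.H109Z.Frog.Fin1

set_option autoImplicit false

/-!
# The Poisson frog model has a phase transition on every supercritical Galton-Watson tree
-/

namespace Pool.Agent.Results.MP_0cd4b8_pr.APhaseTransition

open MeasureTheory Pool.Agent.H109Z.FrogGW
open scoped NNReal ENNReal

/-- For every offspring law `μ` on `ℕ` with mean `> 1` (possibly infinite; no other assumption)
the joint law of the tree conditioned to be infinite and of the frogs is a probability measure,
and there are densities `0 < l1 < l2` such that the model is transient at `l1` and recurrent at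
`l2` and at every larger density. -/
theorem result (μ : Measure ℕ) [IsProbabilityMeasure μ] (hm : 1 < ∫⁻ n, (n : ℝ≥0∞) ∂μ) :
    (∀ lam, IsProbabilityMeasure (Joint μ lam)) ∧
      ∃ l1 l2 : ℝ≥0, 0 < l1 ∧ l1 < l2 ∧ JTransient μ l1 ∧ ∀ lam, l2 ≤ lam → JRecurrent μ lam :=
  phase_transition μ hm

end Pool.Agent.Results.MP_0cd4b8_pr.APhaseTransition
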